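import Mathlib

set_option autoImplicit false

/-!
Concentration of measure for the Hamming distance on a finite product space, in a functional form
which tensorises.
-/

namespace Pool.Agent.H559R3.Conc

open Finset

/-- The one dimensional inequality. -/
theorem one_dim {X : Type} [Fintype X] [DecidableEq X] (E : ℝ) (hE : 1 ≤ E) (f g : X → ℝ)
    (hf : ∀ x, 0 ≤ f x) (hg : ∀ x, 0 ≤ g x) (K : ℝ) (hK : 0 ≤ K)
    (h : ∀ x y, f x * g y ≤ K * (if x = y then 1 else E)) :
    (∑ x, f x) * (∑ y, g y) ≤ K * ((1 + E) ^ 2 / (4 * E)) * (Fintype.card X : ℝ) ^ 2 := by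
  have hE0 : 0 < E := by linarith
  have hC : 0 ≤ (1 + E) ^ 2 / (4 * E) := by positivity
  by_cases hall : ∀ x, f x = 0
  · have : ∑ x, f x = 0 := Finset.sum_eq_zero fun x _ => hall x
    rw [this, zero_mul]
    positivity
  push Not at hall
  obtain ⟨x1, hx1⟩ := hall
  obtain ⟨x0, -, hx0⟩ := Finset.exists_max_image (univ : Finset X) f ⟨x1, mem_univ _⟩
  have hF : 0 < f x0 := lt_of_lt_of_le (lt_of_le_of_ne (hf x1) (Ne.symm hx1)) (hx0 x1 (mem_univ _))
  set F := f x0 with hFdef
  have key : ∀ y, F * g y ≤ K * (1 + E - E * (f y / F)) := by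
    intro y
    have hu1 : f y / F ≤ 1 := by
      rw [div_le_one hF]; exact hx0 y (mem_univ _)
    have hu0 : 0 ≤ f y / F := div_nonneg (hf y) hF.le
    set u := f y / F with hu
    have hfy : f y = u * F := by rw [hu]; field_simp
    by_cases hy : x0 = y
    · have h1 := h x0 y
      rw [if_pos hy] at h1
      have hu' : u = 1 := by rw [hu, ← hy, ← hFdef]; field_simp
      rw [hu']
      have : K * (1 + E - E * 1) = K * 1 := by ring
      rw [this]
      exact h1
    · have h1 := h x0 y
      rw [if_neg hy] at h1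
      have h2 := h y y
      rw [if_pos rfl, mul_one, hfy] at h2
      by_cases hEu : E * u ≤ 1
      · calc F * g y ≤ K * E := h1
          _ ≤ K * (1 + E - E * u) := by
            apply mul_le_mul_of_nonneg_left _ hK
            linarith
      · push Not at hEu
        have hupos : 0 < u := by
          by_contra hcon
          push Not at hcon
          have : u = 0 := le_antisymm hcon hu0
          rw [this, mul_zero] at hEu
          linarith
        have h3 : u * (F * g y) ≤ K := by nlinarith
        have h4 : 1 ≤ u * (1 + E - E * u) := by nlinarith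
        have h5 : u * (F * g y) ≤ u * (K * (1 + E - E * u)) := by
          calc u * (F * g y) ≤ K := h3
            _ = K * 1 := by ring
            _ ≤ K * (u * (1 + E - E * u)) := mul_le_mul_of_nonneg_left h4 hK
            _ = u * (K * (1 + E - E * u)) := by ring
        exact le_of_mul_le_mul_left h5 hupos
  have hsum : F * ∑ y, g y ≤ K * ((1 + E) * (Fintype.card X : ℝ) - E * ((∑ y, f y) / F)) := by
    rw [Finset.mul_sum]
    calc ∑ y, F * g y ≤ ∑ y, K * (1 + E - E * (f y / F)) := Finset.sum_le_sum fun y _ => key y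
      _ = K * ((1 + E) * (Fintype.card X : ℝ) - E * ((∑ y, f y) / F)) := by
        rw [← Finset.mul_sum, Finset.sum_sub_distrib, Finset.sum_const, ← Finset.mul_sum,
          ← Finset.sum_div, Finset.card_univ, nsmul_eq_mul]
        ring
  set s := (∑ y, f y) / F with hs
  have hs0 : 0 ≤ s := div_nonneg (Finset.sum_nonneg fun y _ => hf y) hF.le
  have hsf : ∑ y, f y = s * F := by rw [hs]; field_simp
  set N := (Fintype.card X : ℝ) with hN
  calc (∑ x, f x) * (∑ y, g y) = s * (F * ∑ y, g y) := by rw [hsf]; ring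
    _ ≤ s * (K * ((1 + E) * N - E * s)) := mul_le_mul_of_nonneg_left hsum hs0
    _ = K * (s * ((1 + E) * N - E * s)) := by ring
    _ ≤ K * ((1 + E) ^ 2 / (4 * E) * N ^ 2) := by
      apply mul_le_mul_of_nonneg_left _ hK
      have h9 : (1 + E) ^ 2 / (4 * E) * N ^ 2 = ((1 + E) ^ 2 * N ^ 2) / (4 * E) := by ring
      rw [h9, le_div_iff₀ (by positivity)]
      nlinarith [sq_nonneg ((1 + E) * N - 2 * E * s)]
    _ = K * ((1 + E) ^ 2 / (4 * E)) * N ^ 2 := by ring

theorem hamming_cons {m : ℕ} {X : Fin (m + 1) → Type} [∀ i, DecidableEq (X i)]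
    (a b : X 0) (x y : ∀ i : Fin m, X i.succ) :
    hammingDist (Fin.cons a x : ∀ i, X i) (Fin.cons b y) =
      (if a = b then 0 else 1) + hammingDist x y := by
  unfold hammingDist
  rw [Finset.card_filter, Finset.card_filter, Fin.sum_univ_succ]
  congr 1
  by_cases h : a = b <;> simp [h]

theorem func {m : ℕ} (E : ℝ) (hE : 1 ≤ E) :
    ∀ (X : Fin m → Type) [∀ i, Fintype (X i)] [∀ i, DecidableEq (X i)]
      (f g : (∀ i, X i) → ℝ) (_ : ∀ x, 0 ≤ f x) (_ : ∀ x, 0 ≤ g x)
      (_ : ∀ x y, f x * g y ≤ E ^ (hammingDist x y)),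
      (∑ x, f x) * (∑ y, g y) ≤
        ((1 + E) ^ 2 / (4 * E)) ^ m * (Fintype.card (∀ i, X i) : ℝ) ^ 2 := by
  induction m with
  | zero =>
    intro X _ _ f g hf hg h
    have h1 : ∀ x : (∀ i, X i), x = (fun i => i.elim0) := fun x => funext fun i => i.elim0
    have h2 : (univ : Finset (∀ i, X i)) = {fun i => i.elim0} := by
      ext x
      simp only [Finset.mem_univ, Finset.mem_singleton, true_iff]
      exact h1 x
    have h3 : Fintype.card (∀ i, X i) = 1 := by
      rw [← Finset.card_univ, h2, Finset.card_singleton]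
    rw [h2, Finset.sum_singleton, Finset.sum_singleton, h3]
    have h4 := h (fun i => i.elim0) (fun i => i.elim0)
    rw [hammingDist_self, pow_zero] at h4
    simpa using h4
  | succ m ih =>
    intro X _ _ f g hf hg h
    have hE0 : 0 < E := by linarith
    have hC : 0 ≤ (1 + E) ^ 2 / (4 * E) := by positivity
    have hsplit : ∀ F : (∀ i, X i) → ℝ, ∑ x, F x =
        ∑ a : X 0, ∑ x : (∀ i : Fin m, X i.succ), F (Fin.cons a x) := by
      intro F
      rw [← Fintype.sum_prod_type']
      exact (Fintype.sum_equiv (Fin.consEquiv X) _ _ (fun x => rfl)).symm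
    have hcard : (Fintype.card (∀ i, X i) : ℝ) =
        (Fintype.card (X 0) : ℝ) * (Fintype.card (∀ i : Fin m, X i.succ) : ℝ) := by
      rw [← Fintype.card_congr (Fin.consEquiv X), Fintype.card_prod]
      push_cast
      ring
    rw [hsplit f, hsplit g, hcard]
    have h2 := one_dim E hE (fun a => ∑ x : (∀ i : Fin m, X i.succ), f (Fin.cons a x))
      (fun a => ∑ x : (∀ i : Fin m, X i.succ), g (Fin.cons a x))
      (fun a => Finset.sum_nonneg fun x _ => hf _) (fun a => Finset.sum_nonneg fun x _ => hg _)
      (((1 + E) ^ 2 / (4 * E)) ^ m * (Fintype.card (∀ i : Fin m, X i.succ) : ℝ) ^ 2)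
      (by positivity) ?_
    · calc _ ≤ _ := h2
        _ = _ := by ring
    · intro a b
      by_cases hab : a = b
      · subst hab
        rw [if_pos rfl, mul_one]
        apply ih
        · intro x; exact hf _
        · intro x; exact hg _
        · intro x y
          have := h (Fin.cons a x) (Fin.cons a y)
          rw [hamming_cons, if_pos rfl, zero_add] at this
          exact this
      · rw [if_neg hab]
        have h3 := ih (fun i => X i.succ) (fun x => f (Fin.cons a x) / E)
          (fun x => g (Fin.cons b x)) (fun x => div_nonneg (hf _) hE0.le) (fun x => hg _) ?_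
        · rw [← Finset.sum_div] at h3
          have h4 : (∑ x : (∀ i : Fin m, X i.succ), f (Fin.cons a x)) *
              (∑ x : (∀ i : Fin m, X i.succ), g (Fin.cons b x)) =
              ((∑ x : (∀ i : Fin m, X i.succ), f (Fin.cons a x)) / E *
              (∑ x : (∀ i : Fin m, X i.succ), g (Fin.cons b x))) * E := by
            field_simp
          rw [h4]
          exact mul_le_mul_of_nonneg_right h3 hE0.le
        · intro x y
          have := h (Fin.cons a x) (Fin.cons b y)
          rw [hamming_cons, if_neg hab, pow_add, pow_one] at this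
          rw [div_mul_eq_mul_div, div_le_iff₀ hE0]
          linarith

/-- Two sets of large measure are at small Hamming distance. -/
theorem two_sets {m : ℕ} (X : Fin m → Type) [∀ i, Fintype (X i)] [∀ i, DecidableEq (X i)]
    (A D : Finset (∀ i, X i)) (r : ℕ) (t : ℝ) (ht : 0 ≤ t)
    (h : ∀ x ∈ A, ∀ y ∈ D, r ≤ hammingDist x y) :
    (A.card : ℝ) * D.card ≤
      Real.exp (t ^ 2 * m / 4 - t * r) * (Fintype.card (∀ i, X i) : ℝ) ^ 2 := by
  classical
  have hE : 1 ≤ Real.exp t := Real.one_le_exp ht
  have h1 := func (m := m) (Real.exp t) hE X (fun x => if x ∈ A then 1 else 0)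
    (fun x => if x ∈ D then Real.exp t ^ r else 0)
    (fun x => by split_ifs <;> norm_num) (fun x => by split_ifs <;> positivity) ?_
  · have h2 : ∑ x, (if x ∈ A then (1 : ℝ) else 0) = A.card := by
      rw [Finset.sum_ite_mem, Finset.univ_inter]; simp
    have h3 : ∑ x, (if x ∈ D then Real.exp t ^ r else (0 : ℝ)) = D.card * Real.exp t ^ r := by
      rw [Finset.sum_ite_mem, Finset.univ_inter]; simp
    rw [h2, h3] at h1
    have h4 : (1 + Real.exp t) ^ 2 / (4 * Real.exp t) = Real.cosh (t / 2) ^ 2 := by
      rw [Real.cosh_eq]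
      have h5 : Real.exp t = Real.exp (t / 2) ^ 2 := by
        rw [← Real.exp_nat_mul]; congr 1; push_cast; ring
      rw [h5, Real.exp_neg]
      have := Real.exp_pos (t / 2)
      field_simp
      ring
    have h6 : ((1 + Real.exp t) ^ 2 / (4 * Real.exp t)) ^ m ≤ Real.exp (t ^ 2 * m / 4) := by
      rw [h4, ← pow_mul]
      calc Real.cosh (t / 2) ^ (2 * m) ≤ Real.exp ((t / 2) ^ 2 / 2) ^ (2 * m) := by
            apply pow_le_pow_left₀ (Real.cosh_pos _).le (Real.cosh_le_exp_half_sq _)
        _ = Real.exp (t ^ 2 * m / 4) := by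
            rw [← Real.exp_nat_mul]; congr 1; push_cast; ring
    have h7 : Real.exp t ^ r = Real.exp (t * r) := by
      rw [← Real.exp_nat_mul]; congr 1; ring
    rw [h7] at h1
    have h8 : (A.card : ℝ) * D.card * Real.exp (t * r) ≤
        Real.exp (t ^ 2 * m / 4) * (Fintype.card (∀ i, X i) : ℝ) ^ 2 := by
      calc (A.card : ℝ) * D.card * Real.exp (t * r) = A.card * (D.card * Real.exp (t * r)) := by ring
        _ ≤ _ := h1
        _ ≤ _ := mul_le_mul_of_nonneg_right h6 (by positivity)
    rw [Real.exp_sub, div_mul_eq_mul_div, le_div_iff₀ (Real.exp_pos _)]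
    exact h8
  · intro x y
    by_cases hx : x ∈ A
    · by_cases hy : y ∈ D
      · rw [if_pos hx, if_pos hy, one_mul]
        exact pow_le_pow_right₀ hE (h x hx y hy)
      · rw [if_neg hy, mul_zero]
        positivity
    · rw [if_neg hx, zero_mul]
      positivity

end Pool.Agent.H559R3.Conc
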