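import Pool.Agent.H559R3.Conc

set_option autoImplicit false

namespace Pool.Agent.H559R3.Core

open Finset
open scoped Pointwise

section prod

variable {m : ℕ} (M : Fin m → ℕ) [∀ i, NeZero (M i)]

theorem card_pi_eq : Fintype.card (∀ i, ZMod (M i)) = ∏ i, M i := by
  rw [Fintype.card_pi]
  exact Finset.prod_congr rfl fun i _ => ZMod.card (M i)

theorem fiber (i : Fin m) (a : ZMod (M i)) :
    M i * (univ.filter (fun x : (∀ i, ZMod (M i)) => x i = a)).card = ∏ i, M i := by
  have h := Fintype.card_filter_piFinset_eq (fun i => (univ : Finset (ZMod (M i)))) i a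
  rw [Fintype.piFinset_univ, if_pos (mem_univ _)] at h
  rw [h, ← Finset.mul_prod_erase univ M (mem_univ i)]
  congr 1
  exact Finset.prod_congr rfl fun j _ => by rw [Finset.card_univ, ZMod.card]

theorem fiber_set (i : Fin m) (H : Finset (ZMod (M i))) :
    M i * (univ.filter (fun x : (∀ i, ZMod (M i)) => x i ∈ H)).card = H.card * ∏ i, M i := by
  have h : (univ.filter (fun x : (∀ i, ZMod (M i)) => x i ∈ H)) =
      H.biUnion (fun a => univ.filter (fun x : (∀ i, ZMod (M i)) => x i = a)) := by
    ext x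
    simp
  rw [h, Finset.card_biUnion, Finset.mul_sum, Finset.sum_congr rfl (fun a _ => fiber M i a),
    Finset.sum_const, smul_eq_mul]
  intro a _ b _ hab
  rw [Function.onFun, Finset.disjoint_left]
  intro x hx hx'
  rw [mem_filter] at hx hx'
  exact hab (hx.2.symm.trans hx'.2)

theorem double_count (Y : Finset (∀ i, ZMod (M i))) :
    ∑ y ∈ Y, (univ.filter (fun i => y i = 0)).card ≤
      ∑ i : Fin m, (univ.filter (fun y : (∀ i, ZMod (M i)) => y i = 0)).card := by
  have h1 : ∀ y : (∀ i, ZMod (M i)), (univ.filter (fun i => y i = 0)).card =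
      ∑ i, if y i = 0 then 1 else 0 := fun y => Finset.card_filter _ _
  have h2 : ∀ i : Fin m, (univ.filter (fun y : (∀ i, ZMod (M i)) => y i = 0)).card =
      ∑ y : (∀ i, ZMod (M i)), if y i = 0 then 1 else 0 := fun i => Finset.card_filter _ _
  rw [Finset.sum_congr rfl (fun i _ => h2 i), Finset.sum_comm]
  rw [Finset.sum_congr rfl (fun y _ => h1 y)]
  exact Finset.sum_le_sum_of_subset (Finset.subset_univ _)

end prod

theorem prod_aux (c k m Q : ℕ) (hk : k = 600 * (c + 1)) (hm : m = k ^ 2) (M : Fin m → ℕ)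
    [hne : ∀ i, NeZero (M i)] (hMm : ∀ i, m ≤ M i) (hM200 : ∀ i, 200 ≤ M i)
    (hQ : Q = ∏ i, M i) : ∃ (A Y : Finset (∀ i, ZMod (M i))),
    Q ≤ 16 * A.card ∧ 2 * A.card ≤ Q ∧ 6 * Y.card ≤ A.card ∧
    (∀ y ∈ Y, 100 * c * (A.filter (fun x => x + y ∉ A)).card ≤ Q) ∧
    (∀ A' ⊆ A, 9 * A.card ≤ 10 * A'.card → 9 * Q ≤ 10 * (A' + Y).card) := by
  classical
  have hk600 : 600 ≤ k := by rw [hk]; omega
  have hm4 : 4 ≤ m := by rw [hm]; nlinarith
  have hm0 : (0 : ℝ) < m := by exact_mod_cast (by omega : 0 < m)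
  have hMpos : ∀ i, 0 < M i := fun i => lt_of_lt_of_le (by norm_num) (hM200 i)
  have hQ0 : 0 < Q := by rw [hQ]; exact Finset.prod_pos fun i _ => hMpos i
  have hQR : (0 : ℝ) < Q := by exact_mod_cast hQ0
  -- the sets `H i`
  have hhM : ∀ i, M i / m + 1 ≤ M i := by
    intro i
    have h1 : M i / m ≤ M i / 4 := Nat.div_le_div_left hm4 (by norm_num)
    have := hM200 i
    omega
  have hH : ∀ i, ∃ H : Finset (ZMod (M i)), H.card = M i / m + 1 := by
    intro i
    obtain ⟨t, -, ht⟩ := Finset.exists_subset_card_eq (s := (univ : Finset (ZMod (M i))))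
      (n := M i / m + 1) (by rw [Finset.card_univ, ZMod.card]; exact hhM i)
    exact ⟨t, ht⟩
  choose H hHc using hH
  have hh1 : ∀ i, (M i : ℝ) / m ≤ (H i).card := by
    intro i
    rw [hHc i, div_le_iff₀ hm0]
    have := Nat.lt_div_mul_add (a := M i) (b := m) (by omega)
    have h2 : M i ≤ (M i / m + 1) * m := by rw [add_mul, one_mul]; exact this.le
    exact_mod_cast h2
  have hh2 : ∀ i, ((H i).card : ℝ) ≤ 2 * (M i : ℝ) / m := by
    intro i
    rw [hHc i, le_div_iff₀ hm0]
    have h1 : M i / m * m ≤ M i := Nat.div_mul_le_self _ _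
    have h2 := hMm i
    have h3 : (M i / m + 1) * m ≤ 2 * M i := by rw [add_mul, one_mul]; omega
    exact_mod_cast h3
  have hMR : ∀ i, (0 : ℝ) < M i := fun i => by exact_mod_cast hMpos i
  obtain ⟨r, hr⟩ : ∃ r : ℕ, r = 3 * k := ⟨_, rfl⟩
  obtain ⟨A, hA⟩ : ∃ A : Finset (∀ i, ZMod (M i)), A = Fintype.piFinset (fun i => (H i)ᶜ) :=
    ⟨_, rfl⟩
  obtain ⟨Y, hY⟩ : ∃ Y : Finset (∀ i, ZMod (M i)), Y = univ.filter (fun y => hammingNorm y ≤ r) :=
    ⟨_, rfl⟩
  have hAcard : (A.card : ℝ) = ∏ i, ((M i : ℝ) - (H i).card) := by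
    rw [hA, Fintype.card_piFinset]
    push_cast
    refine Finset.prod_congr rfl fun i _ => ?_
    rw [Finset.card_compl, ZMod.card, Nat.cast_sub]
    rw [hHc i]; exact hhM i
  have hQprod : (Q : ℝ) = ∏ i, (M i : ℝ) := by rw [hQ]; push_cast; rfl
  -- lower bound
  have hA1R : (Q : ℝ) ≤ 16 * A.card := by
    have h2m : (0 : ℝ) ≤ 1 - 2 / m := by
      rw [sub_nonneg, div_le_one hm0]
      exact_mod_cast (by omega : 2 ≤ m)
    have h1 : (Q : ℝ) * (1 - 2 / m) ^ m ≤ A.card := by
      rw [hAcard, hQprod]
      have : ((1 : ℝ) - 2 / m) ^ m = ∏ _i : Fin m, ((1 : ℝ) - 2 / m) := by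
        rw [Finset.prod_const, Finset.card_univ, Fintype.card_fin]
      rw [this, ← Finset.prod_mul_distrib]
      apply Finset.prod_le_prod
      · intro i _
        exact mul_nonneg (hMR i).le h2m
      · intro i _
        have := hh2 i
        have h3 : (M i : ℝ) * (1 - 2 / m) = M i - 2 * M i / m := by ring
        linarith
    have h4 : (1 / 16 : ℝ) ≤ (1 - 2 / m) ^ m := by
      obtain ⟨q, hq⟩ : ∃ q, m = 4 * q := by
        refine ⟨(300 * (c + 1)) ^ 2, ?_⟩
        rw [hm, hk]; ring
      have hq0 : 0 < q := by omega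
      have h5 : (1 / 2 : ℝ) ≤ (1 - 2 / m) ^ q := by
        have := one_add_mul_le_pow (a := -(2 / (m : ℝ))) (by
          have : (2 : ℝ) / m ≤ 1 := by linarith
          linarith) q
        have h6 : 1 + (q : ℝ) * (-(2 / (m : ℝ))) = 1 / 2 := by
          have : (m : ℝ) = 4 * q := by rw [hq]; push_cast; ring
          rw [this]
          have hq' : (0 : ℝ) < q := by exact_mod_cast hq0
          field_simp
          ring
        rw [h6] at this
        rw [sub_eq_add_neg]
        exact this
      calc (1 / 16 : ℝ) = (1 / 2) ^ 4 := by norm_num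
        _ ≤ ((1 - 2 / (m : ℝ)) ^ q) ^ 4 := pow_le_pow_left₀ (by norm_num) h5 4
        _ = (1 - 2 / (m : ℝ)) ^ m := by rw [← pow_mul, mul_comm q 4, ← hq]
    nlinarith
  have hA2R : 2 * (A.card : ℝ) ≤ Q := by
    have h1 : (A.card : ℝ) ≤ Q * Real.exp (-1) := by
      rw [hAcard, hQprod]
      have : Real.exp (-1) = ∏ _i : Fin m, Real.exp (-(1 / m)) := by
        rw [Finset.prod_const, Finset.card_univ, Fintype.card_fin, ← Real.exp_nat_mul]
        congr 1
        field_simp
      rw [this, ← Finset.prod_mul_distrib]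
      apply Finset.prod_le_prod
      · intro i _
        have : (H i).card ≤ M i := by rw [hHc i]; exact hhM i
        rw [sub_nonneg]
        exact_mod_cast this
      · intro i _
        have h3 := hh1 i
        have h4 := Real.add_one_le_exp (-(1 / (m : ℝ)))
        have h5 : (M i : ℝ) * (-(1 / (m : ℝ)) + 1) ≤ M i * Real.exp (-(1 / m)) :=
          mul_le_mul_of_nonneg_left h4 (hMR i).le
        have h6 : (M i : ℝ) * (-(1 / (m : ℝ)) + 1) = M i - M i / m := by ring
        linarith
    have h2 : Real.exp (-1) ≤ 1 / 2 := by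
      rw [Real.exp_neg, ← one_div]
      apply one_div_le_one_div_of_le (by norm_num)
      have := Real.add_one_le_exp (1 : ℝ)
      linarith
    nlinarith
  have hA1 : Q ≤ 16 * A.card := by exact_mod_cast hA1R
  have hA2 : 2 * A.card ≤ Q := by exact_mod_cast hA2R
  have hcardG : Fintype.card (∀ i, ZMod (M i)) = Q := by rw [hQ]; exact card_pi_eq M
  refine ⟨A, Y, hA1, hA2, ?_, ?_, ?_⟩
  · -- size of `Y`
    have h1 : ∀ y ∈ Y, m ≤ 2 * (univ.filter (fun i => y i = 0)).card := by
      intro y hy
      rw [hY, mem_filter] at hy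
      have h2 : (univ.filter (fun i => y i = 0)).card + hammingNorm y = m := by
        have := Finset.card_filter_add_card_filter_not (s := (univ : Finset (Fin m)))
          (fun i => y i = 0)
        rw [Finset.card_univ, Fintype.card_fin] at this
        exact this
      have h3 : 2 * r ≤ m := by rw [hr, hm]; nlinarith
      have := hy.2
      omega
    have h2 : Y.card * m ≤ 2 * ∑ y ∈ Y, (univ.filter (fun i => y i = 0)).card := by
      rw [Finset.mul_sum, ← smul_eq_mul, ← Finset.sum_const]
      exact Finset.sum_le_sum h1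
    have h3 : ∑ y ∈ Y, (univ.filter (fun i => y i = 0)).card ≤
        ∑ i : Fin m, (univ.filter (fun y : (∀ i, ZMod (M i)) => y i = 0)).card :=
      double_count M Y
    have h4 : 200 * ∑ i : Fin m, (univ.filter (fun y : (∀ i, ZMod (M i)) => y i = 0)).card
        ≤ m * Q := by
      rw [Finset.mul_sum]
      calc _ ≤ ∑ _i : Fin m, Q := by
            apply Finset.sum_le_sum
            intro i _
            rw [hQ, ← fiber M i 0]
            exact Nat.mul_le_mul_right _ (hM200 i)
        _ = m * Q := by rw [Finset.sum_const, Finset.card_univ, Fintype.card_fin, smul_eq_mul]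
    have h5 : m * (100 * Y.card) ≤ m * Q := by
      have e1 : m * (100 * Y.card) = 100 * (Y.card * m) := by ring
      rw [e1]
      omega
    have h6 : 100 * Y.card ≤ Q := Nat.le_of_mul_le_mul_left h5 (by omega)
    omega
  · -- almost invariance
    intro y hy
    rw [hY, mem_filter] at hy
    have h1 : (A.filter (fun x => x + y ∉ A)).card ≤
        ∑ i ∈ univ.filter (fun i => y i ≠ 0),
          (univ.filter (fun x : (∀ i, ZMod (M i)) => x i ∈ H i)).card := by
      calc (A.filter (fun x => x + y ∉ A)).card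
          ≤ ((univ.filter (fun i => y i ≠ 0)).biUnion
            (fun i => univ.filter (fun x : (∀ i, ZMod (M i)) => (x + y) i ∈ H i))).card := by
            apply Finset.card_le_card
            intro x hx
            rw [mem_filter] at hx
            obtain ⟨hxA, hxy⟩ := hx
            rw [hA, Fintype.mem_piFinset] at hxA
            rw [hA, Fintype.mem_piFinset] at hxy
            push Not at hxy
            obtain ⟨i, hi⟩ := hxy
            rw [mem_compl, not_not] at hi
            rw [mem_biUnion]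
            refine ⟨i, ?_, ?_⟩
            · rw [mem_filter]
              refine ⟨mem_univ _, ?_⟩
              intro hyi
              have := hxA i
              rw [mem_compl] at this
              apply this
              rw [Pi.add_apply, hyi, add_zero] at hi
              exact hi
            · rw [mem_filter]
              exact ⟨mem_univ _, hi⟩
        _ ≤ ∑ i ∈ univ.filter (fun i => y i ≠ 0),
            (univ.filter (fun x : (∀ i, ZMod (M i)) => (x + y) i ∈ H i)).card :=
            Finset.card_biUnion_le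
        _ = _ := by
            refine Finset.sum_congr rfl fun i _ => ?_
            apply Finset.card_bij (fun x _ => x + y)
            · intro x hx
              rw [mem_filter] at hx ⊢
              exact ⟨mem_univ _, hx.2⟩
            · intro a _ b _ hab
              exact add_right_cancel hab
            · intro b hb
              rw [mem_filter] at hb
              refine ⟨b - y, ?_, sub_add_cancel b y⟩
              rw [mem_filter, sub_add_cancel]
              exact ⟨mem_univ _, hb.2⟩
    have h2 : ∀ i : Fin m, ((univ.filter (fun x : (∀ i, ZMod (M i)) => x i ∈ H i)).card : ℝ) ≤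
        2 * Q / m := by
      intro i
      have h3 := fiber_set M i (H i)
      rw [← hQ] at h3
      have h4 : (M i : ℝ) * (univ.filter (fun x : (∀ i, ZMod (M i)) => x i ∈ H i)).card =
          (H i).card * Q := by exact_mod_cast h3
      have h5 : (M i : ℝ) * (univ.filter (fun x : (∀ i, ZMod (M i)) => x i ∈ H i)).card ≤
          M i * (2 * Q / m) := by
        rw [h4]
        calc ((H i).card : ℝ) * Q ≤ (2 * (M i : ℝ) / m) * Q :=
              mul_le_mul_of_nonneg_right (hh2 i) hQR.le
          _ = _ := by ring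
      exact le_of_mul_le_mul_left h5 (hMR i)
    have h3 : ((A.filter (fun x => x + y ∉ A)).card : ℝ) ≤ r * (2 * Q / m) := by
      calc ((A.filter (fun x => x + y ∉ A)).card : ℝ) ≤
          ∑ i ∈ univ.filter (fun i => y i ≠ 0),
          ((univ.filter (fun x : (∀ i, ZMod (M i)) => x i ∈ H i)).card : ℝ) := by
            exact_mod_cast h1
        _ ≤ ∑ i ∈ univ.filter (fun i => y i ≠ 0), (2 * Q / m : ℝ) :=
            Finset.sum_le_sum fun i _ => h2 i
        _ = (hammingNorm y : ℝ) * (2 * Q / m) := by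
            rw [Finset.sum_const, nsmul_eq_mul]; rfl
        _ ≤ r * (2 * Q / m) := by
            apply mul_le_mul_of_nonneg_right _ (by positivity)
            exact_mod_cast hy.2
    have h4 : (r : ℝ) * (2 * Q / m) = 6 * Q / k := by
      rw [hr, hm]
      push_cast
      have : (0 : ℝ) < k := by exact_mod_cast (by omega : 0 < k)
      field_simp
      ring
    have h5 : (100 * c * (A.filter (fun x => x + y ∉ A)).card : ℝ) ≤ Q := by
      rw [h4] at h3
      have hk0 : (0 : ℝ) < k := by exact_mod_cast (by omega : 0 < k)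
      have hkc : (600 : ℝ) * c ≤ k := by
        have : 600 * c ≤ k := by rw [hk]; omega
        exact_mod_cast this
      calc (100 * c * (A.filter (fun x => x + y ∉ A)).card : ℝ) ≤ 100 * c * (6 * Q / k) :=
            mul_le_mul_of_nonneg_left h3 (by positivity)
        _ = (600 * c) * Q / k := by ring
        _ ≤ k * Q / k := by
            apply div_le_div_of_nonneg_right _ hk0.le
            exact mul_le_mul_of_nonneg_right hkc hQR.le
        _ = Q := by field_simp
    exact_mod_cast h5
  · -- expansion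
    intro A' hA' hcard
    by_contra hcon
    push Not at hcon
    obtain ⟨D, hD⟩ : ∃ D : Finset (∀ i, ZMod (M i)), D = (A' + Y)ᶜ := ⟨_, rfl⟩
    have hDcard : Q < 10 * D.card := by
      have : D.card + (A' + Y).card = Q := by
        rw [hD, ← hcardG, add_comm]
        exact Finset.card_add_card_compl _
      omega
    have hA'card : 9 * Q ≤ 160 * A'.card := by omega
    have hdist : ∀ x ∈ A', ∀ y ∈ D, r ≤ hammingDist x y := by
      intro x hx y hy
      by_contra hlt
      push Not at hlt
      rw [hD, mem_compl] at hy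
      apply hy
      rw [Finset.mem_add]
      refine ⟨x, hx, y - x, ?_, by abel⟩
      rw [hY, mem_filter]
      refine ⟨mem_univ _, ?_⟩
      rw [hammingDist_eq_hammingNorm, neg_add_eq_sub] at hlt
      exact hlt.le
    have h1 := Conc.two_sets (fun i => ZMod (M i)) A' D r (6 / k) (by positivity) hdist
    rw [hcardG] at h1
    have hk0 : (0 : ℝ) < k := by exact_mod_cast (by omega : 0 < k)
    have h2 : (6 / (k : ℝ)) ^ 2 * m / 4 - 6 / k * r = -9 := by
      rw [hr, hm]
      push_cast
      field_simp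
      norm_num
    rw [h2] at h1
    have h3 : Real.exp (-9) ≤ 1 / 500 := by
      rw [Real.exp_neg, ← one_div]
      apply one_div_le_one_div_of_le (by norm_num)
      have h4 : Real.exp 9 = Real.exp 1 ^ 9 := by rw [← Real.exp_nat_mul]; norm_num
      have h5 : (2 : ℝ) ≤ Real.exp 1 := by
        have := Real.add_one_le_exp (1 : ℝ)
        linarith
      rw [h4]
      calc (500 : ℝ) ≤ 2 ^ 9 := by norm_num
        _ ≤ Real.exp 1 ^ 9 := pow_le_pow_left₀ (by norm_num) h5 9
    have h4 : (9 * Q : ℝ) ≤ 160 * A'.card := by exact_mod_cast hA'card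
    have h5 : (Q : ℝ) < 10 * D.card := by exact_mod_cast hDcard
    have h6 : (A'.card : ℝ) * D.card ≤ 1 / 500 * (Q : ℝ) ^ 2 :=
      h1.trans (mul_le_mul_of_nonneg_right h3 (by positivity))
    have h7 : (9 / 160 * Q : ℝ) * (Q / 10) ≤ A'.card * D.card := by
      apply mul_le_mul (by linarith) (by linarith) (by linarith) (Nat.cast_nonneg _)
    nlinarith [sq_nonneg (Q : ℝ), mul_pos hQR hQR]

/-- The example in a product of cyclic groups. -/
theorem prod_version (c : ℕ) : ∃ (m : ℕ) (M : Fin m → ℕ) (_ : ∀ i, NeZero (M i))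
    (_ : Pairwise (Function.onFun Nat.Coprime M)) (A Y : Finset (∀ i, ZMod (M i))),
    (∏ i, M i) ≤ 16 * A.card ∧ 2 * A.card ≤ (∏ i, M i) ∧ 6 * Y.card ≤ A.card ∧
    (∀ y ∈ Y, 100 * c * (A.filter (fun x => x + y ∉ A)).card ≤ (∏ i, M i)) ∧
    (∀ A' ⊆ A, 9 * A.card ≤ 10 * A'.card → 9 * (∏ i, M i) ≤ 10 * (A' + Y).card) := by
  classical
  obtain ⟨k, hk⟩ : ∃ k : ℕ, k = 600 * (c + 1) := ⟨_, rfl⟩
  obtain ⟨m, hm⟩ : ∃ m : ℕ, m = k ^ 2 := ⟨_, rfl⟩
  obtain ⟨T, hT⟩ : ∃ T : ℕ, T = max 200 m := ⟨_, rfl⟩
  obtain ⟨M, hM⟩ : ∃ M : Fin m → ℕ, M = fun i : Fin m => Nat.nth Nat.Prime (T + (i : ℕ)) :=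
    ⟨_, rfl⟩
  have hprime : ∀ i, (M i).Prime := fun i => by
    rw [hM]; exact Nat.nth_mem_of_infinite Nat.infinite_setOfPred_prime _
  have hne : ∀ i, NeZero (M i) := fun i => ⟨(hprime i).ne_zero⟩
  have hMT : ∀ i, T ≤ M i := by
    intro i
    have := (Nat.nth_strictMono Nat.infinite_setOfPred_prime).le_apply (x := T + i)
    rw [hM]
    exact le_trans (Nat.le_add_right _ _) this
  have hTm : m ≤ T := by rw [hT]; exact le_max_right _ _
  have hMm : ∀ i, m ≤ M i := fun i => le_trans hTm (hMT i)
  have hT200 : 200 ≤ T := by rw [hT]; exact le_max_left _ _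
  have hM200 : ∀ i, 200 ≤ M i := fun i => le_trans hT200 (hMT i)
  have hcop : Pairwise (Function.onFun Nat.Coprime M) := by
    intro i j hij
    rw [Function.onFun, Nat.coprime_primes (hprime i) (hprime j), hM]
    intro h
    have := (Nat.nth_strictMono Nat.infinite_setOfPred_prime).injective h
    exact hij (Fin.ext (by omega))
  obtain ⟨A, Y, h⟩ := prod_aux c k m _ hk hm M hMm hM200 rfl
  exact ⟨m, M, hne, hcop, A, Y, h⟩

end Pool.Agent.H559R3.Core
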