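import Pool.Agent.H272R3.DP.T

set_option autoImplicit false

open Cardinal

namespace Pool.Agent.H559R3.DPBox

theorem taskBox : Pool.Agent.H272R3.DP.TaskBox := by
  intro X κ hX hκ hlim m
  induction m with
  | zero =>
    intro C _ col
    refine ⟨fun l => l.elim0, fun l => l.elim0, fun l => l.elim0, fun s => ?_⟩
    congr 1
    exact Subsingleton.elim _ _
  | succ m ih =>
    intro C hC col
    have hmu : Order.succ #C < κ := hlim _ hC
    obtain ⟨X0, hX0⟩ := (Cardinal.le_mk_iff_exists_set (c := Order.succ #C) (α := X)).1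
      (by rw [hX]; exact hmu.le)
    have hp : ∀ z : Fin m → X, ∃ p : (X0 × X0) × C, p.1.1 ≠ p.1.2 ∧
        col (Fin.cons (p.1.1 : X) z : Fin (m + 1) → X) = p.2 ∧
        col (Fin.cons (p.1.2 : X) z : Fin (m + 1) → X) = p.2 := by
      intro z
      have hni : ¬ Function.Injective
          (fun x : X0 => col (Fin.cons (x : X) z : Fin (m + 1) → X)) := by
        intro hinj
        have h1 := Cardinal.mk_le_of_injective hinj
        rw [hX0] at h1
        exact absurd h1 (not_le.2 (Order.lt_succ _))
      rw [Function.not_injective_iff] at hni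
      obtain ⟨a, b, h1, h2⟩ := hni
      exact ⟨((a, b), col (Fin.cons (a : X) z : Fin (m + 1) → X)), h2, rfl, h1.symm⟩
    choose p hp1 hp2 hp3 using hp
    have hcard : #((X0 × X0) × C) < κ := by
      rw [Cardinal.mk_prod, Cardinal.mk_prod]
      simp only [Cardinal.lift_id]
      rw [hX0]
      exact Cardinal.mul_lt_of_lt hκ (Cardinal.mul_lt_of_lt hκ hmu hmu) hC
    obtain ⟨x, y, hxy, hcol⟩ := ih _ hcard p
    refine ⟨(Fin.cons ((p x).1.1 : X) x : Fin (m + 1) → X),
      (Fin.cons ((p x).1.2 : X) y : Fin (m + 1) → X), ?_, ?_⟩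
    · intro l
      refine Fin.cases ?_ (fun j => ?_) l
      · simp only [Fin.cons_zero]
        intro h
        exact hp1 x (Subtype.ext h)
      · simp only [Fin.cons_succ]
        exact hxy j
    · intro s
      set s' : Finset (Fin m) := Finset.univ.filter (fun l => l.succ ∈ s) with hs'
      set z : Fin m → X := fun l => if l ∈ s' then y l else x l with hz
      have hpz : p z = p x := hcol s'
      have h1 := hp2 z
      have h2 := hp3 z
      rw [hpz] at h1 h2
      have h3 := hp2 x
      have hf : (fun l => if l ∈ s then (Fin.cons ((p x).1.2 : X) y : Fin (m + 1) → X) l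
          else (Fin.cons ((p x).1.1 : X) x : Fin (m + 1) → X) l) =
          (Fin.cons (if (0 : Fin (m + 1)) ∈ s then ((p x).1.2 : X) else ((p x).1.1 : X)) z :
            Fin (m + 1) → X) := by
        funext l
        refine Fin.cases ?_ (fun j => ?_) l
        · simp only [Fin.cons_zero]
        · simp only [Fin.cons_succ, hz, hs', Finset.mem_filter, Finset.mem_univ, true_and]
      rw [hf, h3]
      by_cases h0 : (0 : Fin (m + 1)) ∈ s
      · rw [if_pos h0, h2]
      · rw [if_neg h0, h1]

end Pool.Agent.H559R3.DPBox
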