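import Pool.Agent.H559R3.Core

set_option autoImplicit false

namespace Pool.Agent.H559R3.Lift

open Finset
open scoped Pointwise

section lift

variable {G : Type} [AddCommGroup G] [Fintype G] [DecidableEq G] {Q : ℕ} [NeZero Q]
  (e : ZMod Q ≃+ G)

/-- The reduction map. -/
def psi (x : ℕ) : G := e (x : ZMod Q)

theorem psi_add (x y : ℕ) : psi e (x + y) = psi e x + psi e y := by
  unfold psi
  rw [Nat.cast_add, map_add]

theorem cnt_one (S : Finset G) (a : ℕ) :
    ((Ico a (a + Q)).filter (fun x => psi e x ∈ S)).card = S.card := by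
  apply Finset.card_bij (fun x _ => psi e x)
  · intro x hx
    exact (mem_filter.mp hx).2
  · intro x hx y hy hxy
    rw [mem_filter, mem_Ico] at hx hy
    have h1 : ((x : ℕ) : ZMod Q) = (y : ZMod Q) := e.injective hxy
    have h2 : x ≡ y [MOD Q] := (ZMod.natCast_eq_natCast_iff x y Q).mp h1
    rcases le_total x y with h | h
    · have h3 : Q ∣ y - x := (Nat.modEq_iff_dvd' h).mp h2
      have h4 : y - x = 0 := Nat.eq_zero_of_dvd_of_lt h3 (by omega)
      omega
    · have h3 : Q ∣ x - y := (Nat.modEq_iff_dvd' h).mp h2.symm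
      have h4 : x - y = 0 := Nat.eq_zero_of_dvd_of_lt h3 (by omega)
      omega
  · intro g hg
    have hlt := ZMod.val_lt (e.symm g - (a : ZMod Q))
    have heq : psi e (a + (e.symm g - (a : ZMod Q)).val) = g := by
      unfold psi
      rw [Nat.cast_add, ZMod.natCast_val, ZMod.cast_id', id, add_sub_cancel, e.apply_symm_apply]
    refine ⟨a + (e.symm g - (a : ZMod Q)).val, ?_, heq⟩
    rw [mem_filter, mem_Ico, heq]
    exact ⟨⟨by omega, by omega⟩, hg⟩

theorem cnt (S : Finset G) (a n : ℕ) :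
    ((Ico a (a + n * Q)).filter (fun x => psi e x ∈ S)).card = n * S.card := by
  induction n with
  | zero => simp
  | succ n ih =>
    have h1 : Ico a (a + (n + 1) * Q) = Ico a (a + n * Q) ∪ Ico (a + n * Q) (a + n * Q + Q) := by
      rw [Finset.Ico_union_Ico_eq_Ico (by omega) (by omega)]
      congr 1
      ring
    rw [h1, filter_union, card_union_of_disjoint, ih, cnt_one, add_mul, one_mul]
    apply Finset.disjoint_filter_filter
    rw [Finset.disjoint_left]
    intro x hx hx'
    rw [mem_Ico] at hx hx'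
    omega

end lift

/-- Sum of a set and a small set of almost periods. -/
theorem add_small {G : Type} [AddCommGroup G] [DecidableEq G] (A B : Finset G) :
    (A + B).card ≤ A.card + ∑ y ∈ B, (A.filter (fun x => x + y ∉ A)).card := by
  have h1 : A + B ⊆ A ∪ B.biUnion (fun y => (A.filter (fun x => x + y ∉ A)).image (· + y)) := by
    intro z hz
    obtain ⟨x, hx, y, hy, rfl⟩ := Finset.mem_add.mp hz
    by_cases h : x + y ∈ A
    · exact mem_union_left _ h
    · apply mem_union_right
      rw [mem_biUnion]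
      exact ⟨y, hy, mem_image.mpr ⟨x, mem_filter.mpr ⟨hx, h⟩, rfl⟩⟩
  calc (A + B).card ≤ _ := card_le_card h1
    _ ≤ A.card + (B.biUnion (fun y => (A.filter (fun x => x + y ∉ A)).image (· + y))).card :=
      card_union_le _ _
    _ ≤ A.card + ∑ y ∈ B, ((A.filter (fun x => x + y ∉ A)).image (· + y)).card :=
      Nat.add_le_add_left card_biUnion_le _
    _ ≤ _ := Nat.add_le_add_left (Finset.sum_le_sum fun y _ => card_image_le) _

theorem nat_version (c : ℕ) : ∃ (A B : Finset ℕ) (N : ℕ), (∀ x ∈ A, x < N) ∧ (∀ x ∈ B, x < N) ∧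
    A.card = B.card ∧ (A + B).card ≤ 224 * A.card ∧
    ∀ A' ⊆ A, ∀ B' ⊆ B, 9 * A.card ≤ 10 * A'.card → B'.card ≤ c →
      10 * (A' + B').card < 9 * (A' + B).card := by
  classical
  obtain ⟨m, M, hne, hcop, A0, Y0, hA1, hA2, hY, hinv, hexp⟩ := Core.prod_version (c + 1)
  obtain ⟨Q, hQ⟩ : ∃ Q : ℕ, Q = ∏ i, M i := ⟨_, rfl⟩
  have e0 : ZMod (∏ i, M i) ≃+* ∀ i, ZMod (M i) := ZMod.prodEquivPi M hcop
  rw [← hQ] at hA1 hA2 e0
  simp only [← hQ] at hinv hexp
  have hQ0 : 0 < Q := by
    rw [hQ]; exact Finset.prod_pos fun i _ => Nat.pos_of_ne_zero (hne i).out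
  have hQne : NeZero Q := ⟨hQ0.ne'⟩
  have e : ZMod Q ≃+ ∀ i, ZMod (M i) := e0.toAddEquiv
  obtain ⟨A, hA⟩ : ∃ A : Finset ℕ, A = (Ico 0 (0 + 1 * Q)).filter (fun x => psi e x ∈ A0) :=
    ⟨_, rfl⟩
  obtain ⟨Y, hYd⟩ : ∃ Y : Finset ℕ, Y = (Ico 0 (0 + 6 * Q)).filter (fun x => psi e x ∈ Y0) :=
    ⟨_, rfl⟩
  obtain ⟨K, hK⟩ : ∃ K : Finset ℕ, K = Ico (12 * Q) (12 * Q + (A0.card - 6 * Y0.card)) := ⟨_, rfl⟩
  have hAc : A.card = A0.card := by rw [hA, cnt, one_mul]
  have hYc : Y.card = 6 * Y0.card := by rw [hYd, cnt]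
  have hKc : K.card = A0.card - 6 * Y0.card := by rw [hK, Nat.card_Ico]; omega
  have hAlt : ∀ x ∈ A, x < Q ∧ psi e x ∈ A0 := by
    intro x hx
    rw [hA, mem_filter, mem_Ico] at hx
    exact ⟨by omega, hx.2⟩
  have hYlt : ∀ x ∈ Y, x < 6 * Q ∧ psi e x ∈ Y0 := by
    intro x hx
    rw [hYd, mem_filter, mem_Ico] at hx
    exact ⟨by omega, hx.2⟩
  have hKlt : ∀ x ∈ K, 12 * Q ≤ x ∧ x < 12 * Q + A0.card := by
    intro x hx
    rw [hK, mem_Ico] at hx
    omega
  have hKY : Disjoint K Y := by
    rw [Finset.disjoint_left]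
    intro x hx hx'
    have := hKlt x hx
    have := hYlt x hx'
    omega
  refine ⟨A, K ∪ Y, 13 * Q, ?_, ?_, ?_, ?_, ?_⟩
  · intro x hx
    have := hAlt x hx
    omega
  · intro x hx
    rcases mem_union.mp hx with h | h
    · have := hKlt x h
      omega
    · have := hYlt x h
      omega
  · rw [card_union_of_disjoint hKY, hKc, hYc, hAc]
    omega
  · have h1 : A + (K ∪ Y) ⊆ range (14 * Q) := by
      intro z hz
      obtain ⟨x, hx, y, hy, rfl⟩ := Finset.mem_add.mp hz
      rw [mem_range]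
      have := hAlt x hx
      rcases mem_union.mp hy with h | h
      · have := hKlt y h
        omega
      · have := hYlt y h
        omega
    have h2 := card_le_card h1
    rw [card_range] at h2
    omega
  · intro A' hA' B' hB' hc hBc
    -- lower bound
    obtain ⟨A0', hA0'⟩ : ∃ S : Finset (∀ i, ZMod (M i)), S = A'.image (psi e) := ⟨_, rfl⟩
    have hinj : Set.InjOn (psi e) (A' : Set ℕ) := by
      intro x hx y hy hxy
      have hx' := hAlt x (hA' hx)
      have hy' := hAlt y (hA' hy)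
      have h1 : ((x : ℕ) : ZMod Q) = (y : ZMod Q) := e.injective hxy
      have h2 := congrArg ZMod.val h1
      rw [ZMod.val_natCast_of_lt hx'.1, ZMod.val_natCast_of_lt hy'.1] at h2
      exact h2
    have hA0'c : A0'.card = A'.card := by
      rw [hA0']; exact card_image_of_injOn hinj
    have hsub0 : A0' ⊆ A0 := by
      intro g hg
      rw [hA0', mem_image] at hg
      obtain ⟨x, hx, rfl⟩ := hg
      exact (hAlt x (hA' hx)).2
    have hexp' := hexp A0' hsub0 (by rw [hA0'c, ← hAc]; exact hc)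
    obtain ⟨W, hW⟩ : ∃ W : Finset ℕ, W = (Ico Q (Q + 5 * Q)).filter
      (fun x => psi e x ∈ A0' + Y0) := ⟨_, rfl⟩
    have hWc : W.card = 5 * (A0' + Y0).card := by rw [hW, cnt]
    have hWsub : W ⊆ A' + (K ∪ Y) := by
      intro z hz
      rw [hW, mem_filter, mem_Ico] at hz
      obtain ⟨hz1, hz2⟩ := hz
      obtain ⟨g, hg, y, hy, hgy⟩ := Finset.mem_add.mp hz2
      rw [hA0', mem_image] at hg
      obtain ⟨x, hx, rfl⟩ := hg
      have hx' := hAlt x (hA' hx)
      rw [Finset.mem_add]
      refine ⟨x, hx, z - x, ?_, by omega⟩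
      apply mem_union_right
      rw [hYd, mem_filter, mem_Ico]
      refine ⟨by omega, ?_⟩
      have h3 : psi e z = psi e x + psi e (z - x) := by
        rw [← psi_add]; congr 1; omega
      rw [h3] at hgy
      rw [← add_left_cancel hgy]
      exact hy
    have hAKsub : A' + K ⊆ A' + (K ∪ Y) := Finset.add_subset_add_left subset_union_left
    have hdisj : Disjoint (A' + K) W := by
      rw [Finset.disjoint_left]
      intro z hz hz'
      obtain ⟨x, hx, y, hy, rfl⟩ := Finset.mem_add.mp hz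
      rw [hW, mem_filter, mem_Ico] at hz'
      have := hKlt y hy
      omega
    have hlow : (A' + K).card + W.card ≤ (A' + (K ∪ Y)).card := by
      rw [← card_union_of_disjoint hdisj]
      exact card_le_card (union_subset hAKsub hWsub)
    -- upper bound
    obtain ⟨B0', hB0'⟩ : ∃ S : Finset (∀ i, ZMod (M i)), S = (B' ∩ Y).image (psi e) := ⟨_, rfl⟩
    have hB0'c : B0'.card ≤ c := by
      rw [hB0']
      exact card_image_le.trans ((card_le_card inter_subset_left).trans hBc)
    have hB0'Y : ∀ y ∈ B0', y ∈ Y0 := by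
      intro y hy
      rw [hB0', mem_image] at hy
      obtain ⟨x, hx, rfl⟩ := hy
      exact (hYlt x (mem_inter.mp hx).2).2
    obtain ⟨V, hV⟩ : ∃ V : Finset ℕ, V = (Ico 0 (0 + 7 * Q)).filter
      (fun x => psi e x ∈ A0 + B0') := ⟨_, rfl⟩
    have hVc : V.card = 7 * (A0 + B0').card := by rw [hV, cnt]
    have hsmall : 100 * (A0 + B0').card ≤ 51 * Q := by
      have h1 := add_small A0 B0'
      have h2 : (c + 1) * (100 * ∑ y ∈ B0', (A0.filter (fun x => x + y ∉ A0)).card)
          ≤ (c + 1) * Q := by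
        calc (c + 1) * (100 * ∑ y ∈ B0', (A0.filter (fun x => x + y ∉ A0)).card)
            = ∑ y ∈ B0', 100 * (c + 1) * (A0.filter (fun x => x + y ∉ A0)).card := by
              rw [← Finset.mul_sum]; ring
          _ ≤ ∑ _y ∈ B0', Q := Finset.sum_le_sum fun y hy => hinv y (hB0'Y y hy)
          _ = B0'.card * Q := by rw [sum_const, smul_eq_mul]
          _ ≤ (c + 1) * Q := Nat.mul_le_mul_right _ (by omega)
      have h3 := Nat.le_of_mul_le_mul_left h2 (by omega)
      omega
    have hup : A' + B' ⊆ (A' + K) ∪ V := by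
      intro z hz
      obtain ⟨x, hx, y, hy, rfl⟩ := Finset.mem_add.mp hz
      rcases mem_union.mp (hB' hy) with h | h
      · exact mem_union_left _ (Finset.add_mem_add hx h)
      · apply mem_union_right
        have hx' := hAlt x (hA' hx)
        have hy' := hYlt y h
        rw [hV, mem_filter, mem_Ico]
        refine ⟨by omega, ?_⟩
        rw [psi_add]
        apply Finset.add_mem_add hx'.2
        rw [hB0', mem_image]
        exact ⟨y, mem_inter.mpr ⟨hy, h⟩, rfl⟩
    have hup' : (A' + B').card ≤ (A' + K).card + V.card :=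
      (card_le_card hup).trans (card_union_le _ _)
    have hAK : (A' + K).card ≤ A0.card + Q := by
      have h1 : A' + K ⊆ Ico (12 * Q) (12 * Q + (A0.card + Q)) := by
        intro z hz
        obtain ⟨x, hx, y, hy, rfl⟩ := Finset.mem_add.mp hz
        have := hAlt x (hA' hx)
        have := hKlt y hy
        rw [mem_Ico]
        omega
      have h2 := card_le_card h1
      rw [Nat.card_Ico] at h2
      omega
    omega

theorem zmod_version (c : ℕ) : ∃ p : ℕ, p.Prime ∧ ∃ A B : Finset (ZMod p),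
    A.card = B.card ∧ (A + B).card ≤ 224 * A.card ∧
    ∀ A' ⊆ A, ∀ B' ⊆ B, 9 * A.card ≤ 10 * A'.card → B'.card ≤ c →
      10 * (A' + B').card < 9 * (A' + B).card := by
  classical
  obtain ⟨A, B, N, hA, hB, hAB, hsum, hmain⟩ := nat_version c
  obtain ⟨p, hpN, hp⟩ := Nat.exists_infinite_primes (2 * N + 1)
  have hinj : ∀ S : Finset ℕ, (∀ x ∈ S, x < p) →
      (S.image (Nat.castAddMonoidHom (ZMod p))).card = S.card := by
    intro S hS
    apply card_image_of_injOn
    intro x hx y hy hxy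
    have h1 : ((x : ℕ) : ZMod p) = (y : ZMod p) := hxy
    have h2 : x ≡ y [MOD p] := (ZMod.natCast_eq_natCast_iff x y p).mp h1
    have h3 := h2
    unfold Nat.ModEq at h3
    rw [Nat.mod_eq_of_lt (hS x hx), Nat.mod_eq_of_lt (hS y hy)] at h3
    exact h3
  have hadd : ∀ S ⊆ A, ∀ T ⊆ B, ((S.image (Nat.castAddMonoidHom (ZMod p))) +
      (T.image (Nat.castAddMonoidHom (ZMod p)))).card = (S + T).card := by
    intro S hS T hT
    rw [← Finset.image_add]
    apply hinj
    intro z hz
    obtain ⟨x, hx, y, hy, rfl⟩ := Finset.mem_add.mp hz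
    have := hA x (hS hx)
    have := hB y (hT hy)
    omega
  have hAp : ∀ S ⊆ A, (S.image (Nat.castAddMonoidHom (ZMod p))).card = S.card := fun S hS =>
    hinj S fun x hx => by have := hA x (hS hx); omega
  have hBp : ∀ S ⊆ B, (S.image (Nat.castAddMonoidHom (ZMod p))).card = S.card := fun S hS =>
    hinj S fun x hx => by have := hB x (hS hx); omega
  refine ⟨p, hp, A.image (Nat.castAddMonoidHom (ZMod p)), B.image (Nat.castAddMonoidHom (ZMod p)),
    ?_, ?_, ?_⟩
  · rw [hAp A (Subset.refl _), hBp B (Subset.refl _), hAB]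
  · rw [hadd A (Subset.refl _) B (Subset.refl _), hAp A (Subset.refl _)]
    exact hsum
  · intro A' hA' B' hB' h1 h2
    obtain ⟨S, hS, rfl⟩ := Finset.subset_image_iff.mp hA'
    obtain ⟨T, hT, rfl⟩ := Finset.subset_image_iff.mp hB'
    rw [hadd S hS T hT, hadd S hS B (Subset.refl _)]
    rw [hAp A (Subset.refl _), hAp S hS] at h1
    rw [hBp T hT] at h2
    exact hmain S hS T hT h1 h2

end Pool.Agent.H559R3.Lift
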