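import Pool.Agent.H753R3.SC.Stmts

set_option autoImplicit false

namespace Pool.Agent.H559R3.SC

open Set Filter Topology

/-- Koenig's lemma for decreasing choices -/
theorem koenig {P : Type} [PartialOrder P] (T : ℕ → Set P) (hfin : ∀ n, (T n).Finite)
    (hne : ∀ n, (T n).Nonempty) (hstep : ∀ n, ∀ t ∈ T (n + 1), ∃ s ∈ T n, s ≤ t) :
    ∃ h : ℕ → P, (∀ n, h n ∈ T n) ∧ ∀ n, h n ≤ h (n + 1) := by
  have hc : ∀ n : ℕ, ∀ t ∈ T n, ∃ c : ℕ → P, (∀ m ≤ n, c m ∈ T m) ∧ (∀ m < n, c m ≤ c (m + 1)) ∧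
      c n = t := by
    intro n
    induction n with
    | zero =>
      intro t ht
      exact ⟨fun _ => t, fun m hm => by rw [Nat.le_zero.1 hm]; exact ht, fun m hm => by omega, rfl⟩
    | succ n ih =>
      intro t ht
      obtain ⟨s, hs, hst⟩ := hstep n t ht
      obtain ⟨c, h1, h2, h3⟩ := ih s hs
      refine ⟨fun m => if m = n + 1 then t else c m, ?_, ?_, ?_⟩
      · intro m hm
        show (if m = n + 1 then t else c m) ∈ T m
        by_cases h : m = n + 1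
        · rw [if_pos h, h]; exact ht
        · rw [if_neg h]; exact h1 m (by omega)
      · intro m hm
        show (if m = n + 1 then t else c m) ≤ (if m + 1 = n + 1 then t else c (m + 1))
        rw [if_neg (by omega)]
        by_cases h : m = n
        · rw [if_pos (by omega), h, h3]; exact hst
        · rw [if_neg (by omega)]; exact h2 m (by omega)
      · simp
  choose t ht using hne
  choose c hc1 hc2 _ using fun n => hc n (t n) (ht n)
  have hev : ∀ m, ∀ᶠ n in (hyperfilter ℕ : Filter ℕ), m ≤ n := by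
    intro m
    apply Filter.Eventually.filter_mono (Filter.hyperfilter_le_cofinite)
    rw [Nat.cofinite_eq_atTop]
    exact eventually_ge_atTop m
  have hex : ∀ m, ∃ a ∈ T m, ∀ᶠ n in (hyperfilter ℕ : Filter ℕ), c n m = a := by
    intro m
    rw [← Ultrafilter.eventually_exists_mem_iff (hfin m)]
    filter_upwards [hev m] with n hn
    exact ⟨c n m, hc1 n m hn, rfl⟩
  choose h hh1 hh2 using hex
  refine ⟨h, hh1, ?_⟩
  intro m
  have := ((hh2 m).and ((hh2 (m + 1)).and (hev (m + 1)))).exists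
  obtain ⟨n, h3, h4, h5⟩ := this
  rw [← h3, ← h4]
  exact hc2 n m (by omega)

theorem taskC : Pool.Agent.H753R3.SC.TaskC := by
  intro P _ _ _ hdcpo hloc B hB _ hK
  refine ⟨⟨?_⟩, inferInstance⟩
  intro A hirr hcl
  have hlow : IsLowerSet A := IsScott.isLowerSet_of_isClosed hcl
  -- the base
  have hbase : ∀ (V : Set P), IsOpen V → ∀ x ∈ V, ∃ (K : Set P) (H : Finset P), IsCompact K ∧
      x ∈ interior K ∧ K ⊆ V ∧ (∀ h ∈ H, h ∈ B ∩ V) ∧ ∀ y ∈ K, ∃ h ∈ H, h ≤ y := by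
    intro V hV x hx
    obtain ⟨K, hK1, hK2, hK3⟩ := hloc.local_compact_nhds x V (hV.mem_nhds hx)
    obtain ⟨H, hH1, hH2⟩ := hK K V hK3 hV hK2
    exact ⟨K, H, hK3, mem_interior_iff_mem_nhds.2 hK1, hK2, hH1, hH2⟩
  -- upper closures of finite sets
  let up : Finset P → Set P := fun H => {y | ∃ h ∈ H, h ≤ y}
  let UU : Set (Set P) := {U | ∃ H : Finset P, (∀ h ∈ H, h ∈ B) ∧ U = interior (up H) ∧
    (U ∩ A).Nonempty}
  have hbase2 : ∀ (V : Set P), IsOpen V → ∀ x ∈ V, x ∈ A → ∃ U ∈ UU, x ∈ U ∧ U ⊆ V := by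
    intro V hV x hx hxA
    obtain ⟨K, H, _, hK2, _, hH1, hH2⟩ := hbase V hV x hx
    have h1 : x ∈ interior (up H) := interior_mono (fun y hy => hH2 y hy) hK2
    refine ⟨interior (up H), ⟨H, fun h hh => (hH1 h hh).1, rfl, ⟨x, h1, hxA⟩⟩, h1, ?_⟩
    intro y hy
    obtain ⟨h, hh, hhy⟩ := interior_subset hy
    exact IsScott.isUpperSet_of_isOpen (D := univ) hV hhy (hH1 h hh).2
  have hUUc : UU.Countable := by
    have h1 : {H : Finset P | ∀ h ∈ H, h ∈ B}.Countable := by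
      have h2 := Set.countable_setOf_finite_subset hB
      have h3 : (fun H : Finset P => (H : Set P)) '' {H : Finset P | ∀ h ∈ H, h ∈ B} ⊆
          {t | t.Finite ∧ t ⊆ B} := by
        rintro _ ⟨H, hH, rfl⟩
        exact ⟨H.finite_toSet, fun y hy => hH y hy⟩
      exact Set.countable_of_injective_of_countable_image
        (Finset.coe_injective.injOn) (h2.mono h3)
    refine (h1.image (fun H => interior (up H))).mono ?_
    rintro U ⟨H, hH, rfl, _⟩
    exact ⟨H, hH, rfl⟩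
  obtain ⟨x0, hx0⟩ := hirr.1
  have hUUne : UU.Nonempty := by
    obtain ⟨U, hU, _⟩ := hbase2 univ isOpen_univ x0 (mem_univ _) hx0
    exact ⟨U, hU⟩
  obtain ⟨U, hU⟩ := hUUc.exists_eq_range hUUne
  have hUo : ∀ n, IsOpen (U n) ∧ (U n ∩ A).Nonempty := by
    intro n
    have : U n ∈ UU := by rw [hU]; exact ⟨n, rfl⟩
    obtain ⟨H, _, h1, h2⟩ := this
    exact ⟨by rw [h1]; exact isOpen_interior, h2⟩
  -- one step
  have hstep : ∀ (n : ℕ) (V : {V : Set P // IsOpen V ∧ (V ∩ A).Nonempty}),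
      ∃ (W : {V : Set P // IsOpen V ∧ (V ∩ A).Nonempty}) (H : Finset P),
        W.1 ⊆ V.1 ∩ U n ∧ (∀ y ∈ W.1, ∃ h ∈ H, h ≤ y) ∧ ∀ h ∈ H, h ∈ V.1 ∩ U n := by
    intro n V
    obtain ⟨x, hxA, hx⟩ := hirr.2 V.1 (U n) V.2.1 (hUo n).1
      (by obtain ⟨y, h1, h2⟩ := V.2.2; exact ⟨y, h2, h1⟩)
      (by obtain ⟨y, h1, h2⟩ := (hUo n).2; exact ⟨y, h2, h1⟩)
    obtain ⟨K, H, _, hK2, hK3, hH1, hH2⟩ := hbase (V.1 ∩ U n) (V.2.1.inter (hUo n).1) x hx
    refine ⟨⟨interior K, isOpen_interior, ⟨x, hK2, hxA⟩⟩, H, ?_, ?_, ?_⟩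
    · exact interior_subset.trans hK3
    · intro y hy
      exact hH2 y (interior_subset hy)
    · intro h hh
      exact (hH1 h hh).2
  choose W H hW1 hW2 hW3 using hstep
  let V : ℕ → {V : Set P // IsOpen V ∧ (V ∩ A).Nonempty} := fun n =>
    Nat.rec ⟨univ, isOpen_univ, ⟨x0, mem_univ _, hx0⟩⟩ (fun n v => W n v) n
  have hV : ∀ n, V (n + 1) = W n (V n) := fun n => rfl
  obtain ⟨h, hh1, hh2⟩ := koenig (fun n => {y | y ∈ H n (V n) ∧ y ∈ A})
    (fun n => (H n (V n)).finite_toSet.subset (fun y hy => hy.1))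
    (fun n => by
      obtain ⟨y, hy1, hy2⟩ := (V (n + 1)).2.2
      rw [hV] at hy1
      obtain ⟨z, hz1, hz2⟩ := hW2 n (V n) y hy1
      exact ⟨z, hz1, hlow hz2 hy2⟩)
    (fun n t ht => by
      have h1 : t ∈ (V (n + 1)).1 := (hW3 (n + 1) (V (n + 1)) t ht.1).1
      rw [hV] at h1
      obtain ⟨z, hz1, hz2⟩ := hW2 n (V n) t h1
      exact ⟨z, ⟨hz1, hlow hz2 ht.2⟩, hz2⟩)
  have hmono : Monotone h := monotone_nat_of_le_succ hh2
  have hdir : DirectedOn (· ≤ ·) (range h) := by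
    rintro _ ⟨a, rfl⟩ _ ⟨b, rfl⟩
    exact ⟨h (max a b), ⟨_, rfl⟩, hmono (le_max_left _ _), hmono (le_max_right _ _)⟩
  obtain ⟨x, hx⟩ := hdcpo (range h) (range_nonempty h) hdir
  have hxA : x ∈ A := by
    have h1 := IsScott.dirSupClosed_of_isClosed hcl
    exact h1 (by rintro _ ⟨n, rfl⟩; exact (hh1 n).2) (range_nonempty h) hdir hx
  have hxU : ∀ n, x ∈ U n := by
    intro n
    have h1 : h n ∈ U n := (hW3 n (V n) (h n) (hh1 n).1).2
    exact IsScott.isUpperSet_of_isOpen (D := univ) (hUo n).1 (hx.1 ⟨n, rfl⟩) h1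
  refine ⟨x, ?_⟩
  show closure {x} = A
  apply Subset.antisymm
  · exact closure_minimal (singleton_subset_iff.2 hxA) hcl
  · intro y hy
    by_contra hcon
    obtain ⟨W', hW', hyW, hsub⟩ := hbase2 (closure {x})ᶜ isClosed_closure.isOpen_compl y hcon hy
    rw [hU] at hW'
    obtain ⟨n, rfl⟩ := hW'
    exact hsub (hxU n) (subset_closure (mem_singleton x))

end Pool.Agent.H559R3.SC
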